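import Pool.Agent.P.MP_fc75c6_al.TSMain

open Pool.Agent.P.MP_fc75c6_al

theorem Pool.Agent.Results.MP_fc75c6_al.TentSharp.result :
    ∀ l : ℕ, 11 ≤ l → ∃ (G : Type) (_ : Group G) (_ : Finite G),
      (∃ m : ℤ, IsCoprime m (Nat.card G : ℤ) ∧ IsMSemiRational G m) ∧
        (Nat.card G).primeFactors.card = l ∧ Module.finrank ℚ (charField G) = 2 ^ (l + 1) :=
  Pool.Agent.P.MP_fc75c6_al.tent_sharp

/-- The negated form of Q1 is the case `l = c + 11` of `result`. -/
theorem Pool.Agent.Results.MP_fc75c6_al.TentSharp.unbounded (c : ℕ) :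
    ∃ (G : Type) (_ : Group G) (_ : Finite G),
      (∃ m : ℤ, IsCoprime m (Nat.card G : ℤ) ∧ IsMSemiRational G m) ∧
        c < Module.finrank ℚ (charField G) := by
  obtain ⟨G, _, _, h1, -, h2⟩ := Pool.Agent.Results.MP_fc75c6_al.TentSharp.result (c + 11) (by omega)
  refine ⟨G, inferInstance, inferInstance, h1, ?_⟩
  have := Nat.lt_two_pow_self (n := c + 11 + 1)
  omega
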